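import Mathlib

namespace Pool.Agent.Results.MP_924496_co.Full

open Finset

/-- an `m`-fold cover of `G`: `M u a v b` says that colour `a` at `u` is matched to colour `b` at `v` -/
structure Cover {V : Type} (G : SimpleGraph V) (m : ℕ) where
  M : V → Fin m → V → Fin m → Prop
  symm : ∀ u a v b, M u a v b → M v b u a
  adj : ∀ u a v b, M u a v b → G.Adj u v
  uniq : ∀ u a v b b', M u a v b → M u a v b' → b = b'

/-- colourings for a cover -/
def cols {V : Type} {G : SimpleGraph V} {m : ℕ} (H : Cover G m) : Set (V → Fin m) :=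
  {c | ∀ u v, ¬ H.M u (c u) v (c v)}

def Good {V : Type} (G : SimpleGraph V) (m : ℕ) : Prop := ∀ H : Cover G m, (cols H).Nonempty

/-- DP-chromatic number -/
noncomputable def chi {V : Type} (G : SimpleGraph V) : ℕ := sInf {m | Good G m}

/-- DP colour function -/
noncomputable def P {V : Type} (G : SimpleGraph V) (m : ℕ) : ℕ :=
  sInf {n | ∃ H : Cover G m, (cols H).ncard = n}

def S {V : Type} (G : SimpleGraph V) (k : ℕ) : Set ℕ :=
  {t | chi (G □ completeBipartiteGraph (Fin k) (Fin t)) = chi G + k}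

noncomputable def f {V : Type} (G : SimpleGraph V) (k : ℕ) : ℕ := sInf (S G k)

variable {V : Type} {G : SimpleGraph V}

theorem lists {m m' : ℕ} (h : Good G m) (H : Cover G m') (B : V → Finset (Fin m'))
    (hB : ∀ v, m + (B v).card ≤ m') : ∃ c ∈ cols H, ∀ v, c v ∉ B v := by
  have e : ∀ v, Nonempty (Fin m ↪ {a // a ∉ B v}) := fun v =>
    Function.Embedding.nonempty_of_card_le (by
      have := hB v
      simp only [Fintype.card_fin, Fintype.card_subtype_compl, Fintype.card_coe]
      omega)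
  let g := fun v => (e v).some
  obtain ⟨c, hc⟩ := h ⟨fun u a v b => H.M u (g u a) v (g v b), fun _ _ _ _ => H.symm _ _ _ _,
    fun _ _ _ _ => H.adj _ _ _ _, fun u a v b b' h1 h2 =>
      (g v).injective (Subtype.ext (H.uniq _ _ _ _ _ h1 h2))⟩
  exact ⟨fun v => g v (c v), hc, fun v => (g v (c v)).2⟩

theorem card_one {W : Type} {F : SimpleGraph W} {m : ℕ} (H : Cover F m) (u v : W) (a : Fin m)
    [DecidablePred (H.M u a v)] : (univ.filter (H.M u a v)).card ≤ 1 :=
  card_le_one.2 fun _ h _ g => H.uniq _ _ _ _ _ (mem_filter.1 h).2 (mem_filter.1 g).2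

theorem greedy [Fintype V] (G : SimpleGraph V) : Good G (Fintype.card V + 1) := by
  classical
  intro H
  have : ∀ T : Finset V, ∃ c : V → Fin (Fintype.card V + 1),
      ∀ u ∈ T, ∀ v ∈ T, ¬ H.M u (c u) v (c v) := by
    intro T
    induction T using Finset.induction_on with
    | empty => exact ⟨fun _ => 0, by simp⟩
    | insert w T hw ih =>
      obtain ⟨c, hc⟩ := ih
      obtain ⟨a, ha⟩ : ∃ a, a ∉ univ.biUnion fun u => univ.filter (H.M u (c u) w) := by
        by_contra! g
        have h1 := card_le_card (show univ ⊆ _ from fun a _ => g a)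
        have h2 := card_biUnion_le_card_mul univ _ 1 fun u _ => card_one H u w (c u)
        simp only [card_univ, Fintype.card_fin] at h1 h2
        omega
      simp only [mem_biUnion, mem_univ, mem_filter, true_and, not_exists] at ha
      refine ⟨Function.update c w a, fun u hu v hv g => ?_⟩
      have n := (H.adj _ _ _ _ g).ne
      have k : ∀ x ∈ T, Function.update c w a x = c x := fun x hx =>
        Function.update_of_ne (ne_of_mem_of_not_mem hx hw) _ _
      rw [mem_insert] at hu hv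
      rcases hu with rfl | hu <;> rcases hv with rfl | hv
      · exact n rfl
      · rw [k v hv, Function.update_self] at g
        exact ha _ (H.symm _ _ _ _ g)
      · rw [k u hu, Function.update_self] at g
        exact ha _ g
      · rw [k u hu, k v hv] at g
        exact hc u hu v hv g
  obtain ⟨c, hc⟩ := this univ
  exact ⟨c, fun u v => hc u (mem_univ _) v (mem_univ _)⟩

/-- the cover induced on a copy of `G` -/
def res {W : Type} {K : SimpleGraph W} {m : ℕ} (H : Cover (G □ K) m) (w : W) : Cover G m where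
  M u a v b := H.M (u, w) a (v, w) b
  symm _ _ _ _ := H.symm _ _ _ _
  adj _ _ _ _ h := by simpa using H.adj _ _ _ _ h
  uniq _ _ _ _ _ := H.uniq _ _ _ _ _

theorem upper {m : ℕ} (h : Good G m) (k t : ℕ) :
    Good (G □ completeBipartiteGraph (Fin k) (Fin t)) (m + k) := by
  classical
  intro H
  choose c hc _ using fun i => lists h (res H (Sum.inl i)) (fun _ => ∅) (by simp)
  choose d hd he using fun j => lists h (res H (Sum.inr j))
    (fun v => univ.biUnion fun i => univ.filter (H.M (v, Sum.inl i) (c i v) (v, Sum.inr j)))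
    fun v => by
      have := card_biUnion_le_card_mul univ _ 1 fun i _ =>
        card_one H (v, Sum.inl i) (v, Sum.inr j) (c i v)
      simp only [card_univ, Fintype.card_fin] at this
      omega
  simp only [mem_biUnion, mem_univ, mem_filter, true_and, not_exists] at he
  refine ⟨fun p => Sum.elim c d p.2 p.1, ?_⟩
  rintro ⟨u, i | i⟩ ⟨v, j | j⟩ g <;> have a := H.adj _ _ _ _ g <;> simp at a
  · obtain ⟨_, rfl⟩ := a; exact hc i u v g
  · subst a; exact he _ _ _ g
  · subst a; exact he _ _ _ (H.symm _ _ _ _ g)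
  · obtain ⟨_, rfl⟩ := a; exact hd i u v g

/-- the matching between a small-side copy and a large-side copy -/
def R {m : ℕ} (x y s r : Fin m) (a b : Fin m) : Prop := (a = x ∧ b = s) ∨ (x ≠ y ∧ a = y ∧ b = r)

theorem bad {n t : ℕ} (B : Cover G n) (hB : ¬ (cols B).Nonempty) (H : Cover G (n + 2))
    (g : Fin t → Fin 2 → V → Fin (n + 2))
    (hg : ∀ c : Fin 2 → V → Fin (n + 2), (∀ i, c i ∈ cols H) → ∃ j, c = g j ∨ c ∘ Fin.rev = g j) :
    ¬ Good (G □ completeBipartiteGraph (Fin 2) (Fin t)) (n + 2) := by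
  let s : Fin 2 → Fin (n + 2) := Fin.natAdd n
  have hs : ∀ i, s i ≠ s i.rev := fun i e =>
    (by decide : ∀ i : Fin 2, i ≠ i.rev) i (Fin.natAdd_injective _ _ e)
  let Q := fun (v : V) (i : Fin 2) (j : Fin t) => R (g j i v) (g j i.rev v) (s i) (s i.rev)
  let M : V × (Fin 2 ⊕ Fin t) → Fin (n + 2) → V × (Fin 2 ⊕ Fin t) → Fin (n + 2) → Prop :=
    fun p a q b => match p, q with
      | (u, .inl i), (v, .inl j) => i = j ∧ H.M u a v b
      | (u, .inl i), (v, .inr j) => u = v ∧ Q u i j a b
      | (u, .inr j), (v, .inl i) => u = v ∧ Q u i j b a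
      | (u, .inr i), (v, .inr j) => i = j ∧ ∃ a' b', a = Fin.castAdd 2 a' ∧ b = Fin.castAdd 2 b' ∧
          B.M u a' v b'
  intro h
  obtain ⟨c, hc⟩ := h ⟨M, by
      rintro ⟨u, i | i⟩ a ⟨v, j | j⟩ b ⟨rfl, e⟩
      · exact ⟨rfl, H.symm _ _ _ _ e⟩
      · exact ⟨rfl, e⟩
      · exact ⟨rfl, e⟩
      · obtain ⟨a', b', h1, h2, e⟩ := e
        exact ⟨rfl, b', a', h2, h1, B.symm _ _ _ _ e⟩, by
      rintro ⟨u, i | i⟩ a ⟨v, j | j⟩ b ⟨rfl, e⟩
      · simpa using H.adj _ _ _ _ e
      · simp
      · simp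
      · obtain ⟨a', b', _, _, e⟩ := e
        simpa using B.adj _ _ _ _ e, by
      rintro ⟨u, i | i⟩ a ⟨v, j | j⟩ b b' ⟨rfl, e⟩ ⟨-, e'⟩
      · exact H.uniq _ _ _ _ _ e e'
      · simp only [Q, R] at e e'
        grind
      · have := hs j
        simp only [Q, R] at e e'
        grind
      · obtain ⟨x, y, rfl, rfl, e⟩ := e
        obtain ⟨x', y', h1, rfl, e'⟩ := e'
        obtain rfl := Fin.castAdd_injective _ _ h1
        rw [B.uniq _ _ _ _ _ e e']⟩
  obtain ⟨j, hj⟩ := hg (fun i v => c (v, .inl i)) fun i u v e => hc (u, .inl i) (v, .inl i) ⟨rfl, e⟩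
  have k : ∀ v i, c (v, .inr j) ≠ s i := by
    intro v i e
    have h1 := hc (v, .inl i) (v, .inr j)
    have h2 := hc (v, .inl i.rev) (v, .inr j)
    rcases hj with hj | hj
    · exact h1 ⟨rfl, Or.inl ⟨congrFun (congrFun hj i) v, e⟩⟩
    · have a1 : c (v, .inl i.rev) = g j i v := congrFun (congrFun hj i) v
      have a2 : c (v, .inl i) = g j i.rev v := by simpa using congrFun (congrFun hj i.rev) v
      by_cases z : g j i v = g j i.rev v
      · exact h1 ⟨rfl, Or.inl ⟨a2.trans z.symm, e⟩⟩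
      · refine h2 ⟨rfl, Or.inr ?_⟩
        rw [Fin.rev_rev]
        exact ⟨Ne.symm z, a1, e⟩
  have k2 : ∀ v, ∃ a, c (v, .inr j) = Fin.castAdd 2 a := fun v => by
    have := k v
    revert this
    induction c (v, .inr j) using Fin.addCases with
    | left a => exact fun _ => ⟨a, rfl⟩
    | right i => exact fun z => absurd rfl (z i)
  choose d hd using k2
  exact hB ⟨d, fun u v e => hc (u, .inr j) (v, .inr j) ⟨rfl, _, _, hd u, hd v, e⟩⟩

theorem result {V : Type} [Fintype V] [Nonempty V] (G : SimpleGraph V) :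
    (S G 2).Nonempty ∧ f G 2 < P G (chi G + 2 - 1) ^ 2 := by
  classical
  have hχ : Good G (chi G) := Nat.sInf_mem (s := {m | Good G m}) ⟨_, greedy G⟩
  let E : ∀ m, Cover G m := fun m => ⟨fun _ _ _ _ => False, by simp, by simp, by simp⟩
  obtain ⟨n, hn⟩ : ∃ n, chi G = n + 1 := Nat.exists_eq_succ_of_ne_zero fun e => by
    rw [e] at hχ
    obtain ⟨c, _⟩ := hχ (E 0)
    exact (c (Classical.arbitrary V)).elim0
  obtain ⟨B, hB⟩ : ∃ B : Cover G n, ¬ (cols B).Nonempty :=
    not_forall.1 (Nat.notMem_of_lt_sInf (s := {m | Good G m}) (hn ▸ n.lt_succ_self : n < chi G))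
  rw [hn] at hχ
  obtain ⟨H, hH⟩ : ∃ H : Cover G (n + 2), (cols H).ncard = P G (n + 2) :=
    Nat.sInf_mem (s := {k | ∃ H : Cover G (n + 2), (cols H).ncard = k}) ⟨_, E _, rfl⟩
  obtain ⟨a, ha, -⟩ := lists hχ H (fun _ => ∅) (by simp)
  obtain ⟨b, hb, ab⟩ := lists hχ H (fun v => {a v}) (by simp)
  let T := (Fintype.piFinset fun _ : Fin 2 => (cols H).toFinset).erase ![a, b]
  have hT : T.card < P G (n + 2) ^ 2 := by
    refine (card_erase_lt_of_mem (by simp [Fin.forall_fin_two, ha, hb])).trans_eq ?_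
    simp [← hH, Set.ncard_eq_toFinset_card']
  have h1 := bad B hB H (fun j => (T.equivFin.symm j).1) fun c hc => by
    by_cases e : c = ![a, b]
    · refine ⟨T.equivFin ⟨![b, a], ?_⟩, Or.inr ?_⟩
      · simp only [T, mem_erase, Fintype.mem_piFinset, Set.mem_toFinset, Fin.forall_fin_two]
        refine ⟨fun z => ?_, hb, ha⟩
        have v := Classical.arbitrary V
        exact ab v (mem_singleton.2 (congrFun (congrFun z 0) v))
      · rw [e, Equiv.symm_apply_apply]
        ext i : 1
        fin_cases i <;> rfl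
    · exact ⟨T.equivFin ⟨c, by simp [T, e, hc]⟩, Or.inl (by simp)⟩
  have m : T.card ∈ S G 2 := by
    have h2 := upper hχ 2 T.card
    change chi _ = _
    rw [hn]
    refine le_antisymm (Nat.sInf_le h2) (le_csInf (s := {m | Good _ m}) ⟨_, h2⟩ fun m hm => ?_)
    by_contra! z
    refine h1 fun K => ?_
    obtain ⟨c, hc, -⟩ := lists hm K (fun _ => ∅) (by simp; omega)
    exact ⟨c, hc⟩
  rw [hn]
  exact ⟨⟨_, m⟩, (Nat.sInf_le m).trans_lt hT⟩

end Pool.Agent.Results.MP_924496_co.Full
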